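import Mathlib
import Pool.Agent.H39.DerRing1

set_option autoImplicit false

/-!
# Isomorphisms of Lie rings of derivations of polynomial rings in infinitely many variables

The starting file `AutIsConjugation` treats automorphisms of `Der F[σ]` that are linear over `F`.
Here the maps are only additive, the target is the Lie ring of derivations of an arbitrary
commutative domain over an arbitrary commutative ring, and the inducing ring isomorphism is unique.
-/

namespace Pool.Agent.Results.MP_c978f4_al.LieRingIsomorphisms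

open MvPolynomial Pool.Agent.H39.DerRing

universe u v w x

/-- the Lie ring of all `R`-linear derivations of the commutative `R`-algebra `B` -/
abbrev Der (R : Type*) (B : Type*) [CommRing R] [CommRing B] [Algebra R B] := Derivation R B B

/-- An isomorphism of Lie rings: an additive bijection that preserves the brackets. No linearity
over the ground rings is required. -/
def IsLieRingIso {R B R' B' : Type*} [CommRing R] [CommRing B] [Algebra R B]
    [CommRing R'] [CommRing B'] [Algebra R' B'] (ψ : Der R B ≃+ Der R' B') : Prop :=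
  ∀ D E : Der R B, ψ ⁅D, E⁆ = ⁅ψ D, ψ E⁆

/-- The ring isomorphism `φ : B ≃ B'` induces `ψ`: `ψ(D) = φ ∘ D ∘ φ⁻¹` for every derivation `D`. -/
def Induces {R B R' B' : Type*} [CommRing R] [CommRing B] [Algebra R B]
    [CommRing R'] [CommRing B'] [Algebra R' B'] (φ : B ≃+* B') (ψ : Der R B ≃+ Der R' B') : Prop :=
  ∀ (D : Der R B) (b : B'), ψ D b = φ (D (φ.symm b))

section

variable {F : Type u} [Field F] {σ : Type v}

theorem unique_aux [CharZero F] [Infinite σ] {R B : Type*} [CommRing R] [CommRing B]
    [Algebra R B] {ψ : Der F (MvPolynomial σ F) ≃+ Der R B}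
    {φ₁ φ₂ : MvPolynomial σ F ≃+* B} (h1 : Induces φ₁ ψ) (h2 : Induces φ₂ ψ) : φ₁ = φ₂ := by
  have key : ∀ f, (φ₁.trans φ₂.symm : MvPolynomial σ F ≃+* MvPolynomial σ F) f = f := by
    intro f
    refine eq_id_of_comm' (φ₁.trans φ₂.symm : MvPolynomial σ F ≃+* MvPolynomial σ F).toRingHom
      ?_ inferInstance f
    intro E g
    have e := (h1 E (φ₁ g)).symm.trans (h2 E (φ₁ g))
    rw [φ₁.symm_apply_apply] at e
    show E (φ₂.symm (φ₁ g)) = φ₂.symm (φ₁ (E g))
    rw [e, φ₂.symm_apply_apply]
  apply RingEquiv.ext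
  intro f
  have := congrArg φ₂ (key f)
  simpa using this

/-- the constants are preserved by ring isomorphisms of polynomial rings over fields -/
theorem exists_C {K : Type w} [Field K] {τ : Type x} (φ : MvPolynomial σ F ≃+* MvPolynomial τ K)
    (c : F) : φ (C c) = C (coeff 0 (φ (C c))) := by
  by_cases hc : c = 0
  · subst hc; simp
  · have h1 : IsUnit (C c : MvPolynomial σ F) := (isUnit_iff_ne_zero.2 hc).map C
    have h2 : IsUnit (φ (C c)) := h1.map φ
    rw [MvPolynomial.isUnit_iff_eq_C_of_isReduced] at h2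
    obtain ⟨k, _, hk⟩ := h2
    rw [hk]; simp

/-- the isomorphism of the coefficient fields -/
noncomputable def coeffIso {K : Type w} [Field K] {τ : Type x}
    (φ : MvPolynomial σ F ≃+* MvPolynomial τ K) : F ≃+* K :=
  RingEquiv.ofBijective (constantCoeff.comp ((φ : MvPolynomial σ F →+* MvPolynomial τ K).comp C))
    ⟨RingHom.injective _, fun k => by
      refine ⟨coeff 0 (φ.symm (C k)), ?_⟩
      have h := exists_C φ.symm k
      simp only [RingHom.coe_comp, Function.comp_apply, RingHom.coe_coe]
      rw [← h, φ.apply_symm_apply]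
      simp⟩

theorem coeffIso_spec {K : Type w} [Field K] {τ : Type x}
    (φ : MvPolynomial σ F ≃+* MvPolynomial τ K) (c : F) : φ (C c) = C (coeffIso φ c) :=
  exists_C φ c

theorem exists_conj {K : Type w} [Field K] {τ : Type x}
    (φ : MvPolynomial σ F ≃+* MvPolynomial τ K) (D : Der F (MvPolynomial σ F)) :
    ∃ D' : Der K (MvPolynomial τ K), ∀ b, D' b = φ (D (φ.symm b)) := by
  refine ⟨Derivation.mk' { toFun := fun b => φ (D (φ.symm b)), map_add' := ?_, map_smul' := ?_ }
    ?_, fun b => rfl⟩
  · intro a b; simp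
  · intro k b
    have h : φ.symm (C k) = C (coeff 0 (φ.symm (C k))) := exists_C φ.symm k
    have h0 : D (C (coeff 0 (φ.symm (C k)))) = 0 := by
      rw [← MvPolynomial.algebraMap_eq]; exact D.map_algebraMap _
    show φ (D (φ.symm (k • b))) = k • φ (D (φ.symm b))
    rw [MvPolynomial.smul_eq_C_mul, MvPolynomial.smul_eq_C_mul, map_mul, h, Derivation.leibniz, h0,
      smul_zero, add_zero, smul_eq_mul, map_mul, ← h, φ.apply_symm_apply]
  · intro a b
    show φ (D (φ.symm (a * b))) = a • φ (D (φ.symm b)) + b • φ (D (φ.symm a))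
    rw [map_mul, Derivation.leibniz, map_add, smul_eq_mul, smul_eq_mul, map_mul, map_mul,
      φ.apply_symm_apply, φ.apply_symm_apply, smul_eq_mul, smul_eq_mul]

/-- conjugation by a ring isomorphism -/
noncomputable def conj {K : Type w} [Field K] {τ : Type x}
    (φ : MvPolynomial σ F ≃+* MvPolynomial τ K) :
    Der F (MvPolynomial σ F) ≃+ Der K (MvPolynomial τ K) where
  toFun D := (exists_conj φ D).choose
  invFun D := (exists_conj φ.symm D).choose
  left_inv D := by
    refine Derivation.ext fun f => ?_
    rw [(exists_conj φ.symm _).choose_spec, (exists_conj φ D).choose_spec]; simp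
  right_inv D := by
    refine Derivation.ext fun f => ?_
    rw [(exists_conj φ _).choose_spec, (exists_conj φ.symm D).choose_spec]; simp
  map_add' D E := by
    refine Derivation.ext fun f => ?_
    rw [(exists_conj φ _).choose_spec, Derivation.coe_add, Derivation.coe_add, Pi.add_apply,
      Pi.add_apply, (exists_conj φ _).choose_spec, (exists_conj φ _).choose_spec, map_add]

theorem conj_apply {K : Type w} [Field K] {τ : Type x}
    (φ : MvPolynomial σ F ≃+* MvPolynomial τ K) (D : Der F (MvPolynomial σ F))
    (b : MvPolynomial τ K) : conj φ D b = φ (D (φ.symm b)) :=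
  (exists_conj φ D).choose_spec b

theorem conj_lie {K : Type w} [Field K] {τ : Type x}
    (φ : MvPolynomial σ F ≃+* MvPolynomial τ K) : IsLieRingIso (conj φ) := by
  intro D E
  refine Derivation.ext fun f => ?_
  rw [conj_apply, Derivation.commutator_apply, Derivation.commutator_apply, conj_apply, conj_apply,
    conj_apply, conj_apply, φ.symm_apply_apply, φ.symm_apply_apply, map_sub]

theorem exists_equiv {K : Type w} [Field K] {τ : Type x}
    (φ : MvPolynomial σ F ≃+* MvPolynomial τ K) : Nonempty (σ ≃ τ) := by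
  let φ' : MvPolynomial σ F ≃+* MvPolynomial τ F :=
    φ.trans (MvPolynomial.mapEquiv τ (coeffIso φ).symm)
  have hC : ∀ c : F, φ' (C c) = C c := by
    intro c
    show MvPolynomial.mapEquiv τ (coeffIso φ).symm (φ (C c)) = C c
    rw [coeffIso_spec]
    simp
  let e : MvPolynomial σ F ≃ₐ[F] MvPolynomial τ F :=
    AlgEquiv.ofRingEquiv (f := φ') (fun c => by
      rw [MvPolynomial.algebraMap_eq, MvPolynomial.algebraMap_eq]; exact hC c)
  have h1 := e.isTranscendenceBasis (IsTranscendenceBasis.mvPolynomial σ F)
  have h2 := h1.lift_cardinalMk_eq (IsTranscendenceBasis.mvPolynomial τ F)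
  exact Cardinal.lift_mk_eq'.1 h2

end

/-- **Main theorem.** Let `F` be a field of characteristic zero and `σ` an infinite set of
variables.

(1) (The full answer to the question.) Every automorphism `ψ` of the Lie algebra `Der F[σ]` over
`F` is conjugation by exactly one automorphism of the `F`-algebra `F[σ]`.

(2) Let `B` be any commutative domain which is an algebra over a commutative ring `R`, and let `ψ`
be any isomorphism of Lie rings (only additive, no linearity is assumed) from `Der_F F[σ]` onto
`Der_R B`. Then `ψ` is induced by exactly one isomorphism of rings `F[σ] ≃ B`; in particular `B` is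
a polynomial ring.

(3) Conversely every isomorphism of rings `F[σ] ≃ K[τ]`, `K` a field, induces an isomorphism of the
Lie rings of derivations. So for `B = F[σ]`, `R = F`: the group of automorphisms of the ring `F[σ]`
is mapped bijectively to the group of automorphisms of the Lie ring `Der_F F[σ]`.

(4) For a field `K` and a set `τ` the Lie rings `Der_F F[σ]` and `Der_K K[τ]` are isomorphic if and
only if the fields `F` and `K` are isomorphic and `σ` and `τ` have the same cardinality. -/
theorem result (F : Type u) [Field F] [CharZero F] (σ : Type v) [Infinite σ] :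
    (∀ ψ : Der F (MvPolynomial σ F) ≃ₗ⁅F⁆ Der F (MvPolynomial σ F),
      ∃! φ : MvPolynomial σ F ≃ₐ[F] MvPolynomial σ F,
        ∀ (D : Der F (MvPolynomial σ F)) (f : MvPolynomial σ F), ψ D f = φ (D (φ.symm f))) ∧
    (∀ (R : Type w) (B : Type x) [CommRing R] [CommRing B] [IsDomain B] [Algebra R B]
      (ψ : Der F (MvPolynomial σ F) ≃+ Der R B), IsLieRingIso ψ →
        ∃! φ : MvPolynomial σ F ≃+* B, Induces φ ψ) ∧
    (∀ (K : Type w) (τ : Type x) [Field K] (φ : MvPolynomial σ F ≃+* MvPolynomial τ K),
      ∃! ψ : Der F (MvPolynomial σ F) ≃+ Der K (MvPolynomial τ K),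
        IsLieRingIso ψ ∧ Induces φ ψ) ∧
    (∀ (K : Type w) (τ : Type x) [Field K],
      (∃ ψ : Der F (MvPolynomial σ F) ≃+ Der K (MvPolynomial τ K), IsLieRingIso ψ) ↔
        Nonempty (F ≃+* K) ∧ Nonempty (σ ≃ τ)) := by
  refine ⟨?_, ?_, ?_, ?_⟩
  · intro ψ
    obtain ⟨φ, hφ⟩ := Pool.Agent.H865R3.DerAut.main ψ
    refine ⟨φ, hφ, fun φ' hφ' => ?_⟩
    have h := unique_aux (ψ := (ψ : Der F (MvPolynomial σ F) ≃ₗ[F] Der F (MvPolynomial σ F)).toAddEquiv)
      (φ₁ := φ'.toRingEquiv) (φ₂ := φ.toRingEquiv) hφ' hφ
    apply AlgEquiv.ext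
    intro f
    exact congrArg (fun e : MvPolynomial σ F ≃+* MvPolynomial σ F => e f) h
  · intro R B _ _ _ _ ψ hψ
    obtain ⟨φ, hφ⟩ := main ψ hψ
    exact ⟨φ, hφ, fun φ' hφ' => unique_aux hφ' hφ⟩
  · intro K τ _ φ
    refine ⟨conj φ, ⟨conj_lie φ, conj_apply φ⟩, fun ψ hψ => ?_⟩
    apply AddEquiv.ext
    intro D
    refine Derivation.ext fun f => ?_
    rw [hψ.2 D f, conj_apply]
  · intro K τ _
    constructor
    · rintro ⟨ψ, hψ⟩
      obtain ⟨φ, _⟩ := main ψ hψ
      exact ⟨⟨coeffIso φ⟩, exists_equiv φ⟩
    · rintro ⟨⟨e⟩, ⟨r⟩⟩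
      exact ⟨conj ((MvPolynomial.renameEquiv F r).toRingEquiv.trans (MvPolynomial.mapEquiv τ e)),
        conj_lie _⟩

end Pool.Agent.Results.MP_c978f4_al.LieRingIsomorphisms
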